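import Pool.Agent.helper55.RI.Spec

/-!
# Project ri (MP_2bd605_lc), module D1: counting words
-/

set_option autoImplicit false

namespace Pool.Agent.RI

open Pool.Agent.helper62 Prog Function Pool.Agent.helper81.PL

/-- the word with a leading one, read in base two (least significant digit first) -/
def D1_num : W → ℕ
  | [] => 1
  | b :: l => 2 * D1_num l + b.toNat

theorem D1_pos (w : W) : 1 ≤ D1_num w := by
  induction w with
  | nil => exact le_rfl
  | cons b l ih => simp only [D1_num]; omega

theorem D1_lt (w : W) : D1_num w < 2 ^ (w.length + 1) := by
  induction w with
  | nil => simp [D1_num]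
  | cons b l ih =>
    simp only [D1_num, List.length_cons]
    have : b.toNat ≤ 1 := Bool.toNat_le b
    rw [pow_succ]
    omega

theorem D1_inj : Injective D1_num := by
  intro w
  induction w with
  | nil =>
    intro v h
    cases v with
    | nil => rfl
    | cons c m =>
      simp only [D1_num] at h
      have := D1_pos m
      omega
  | cons b l ih =>
    intro v h
    cases v with
    | nil =>
      simp only [D1_num] at h
      have := D1_pos l
      omega
    | cons c m =>
      simp only [D1_num] at h
      have h1 : b.toNat ≤ 1 := Bool.toNat_le b
      have h2 : c.toNat ≤ 1 := Bool.toNat_le c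
      have h3 : D1_num l = D1_num m := by omega
      have h4 : b.toNat = c.toNat := by omega
      have h5 : b = c := by
        cases b <;> cases c <;> simp_all
      rw [ih h3, h5]

theorem D1 : D1_stmt := by
  intro n T hT
  have h : T.card ≤ (Finset.range (2 * n)).card := by
    refine Finset.card_le_card_of_injOn D1_num ?_ (D1_inj.injOn)
    intro a ha
    have h1 := hT a ha
    have h2 := D1_lt a
    rw [pow_succ] at h2
    simp only [Finset.coe_range, Set.mem_Iio]
    omega
  rwa [Finset.card_range] at h

end Pool.Agent.RI
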