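import Pool.Agent.helper55.RI.Spec

/-!
# Project ri (MP_2bd605_lc), module X1: from the library to stack programs
-/

set_option autoImplicit false

namespace Pool.Agent.RI

open Pool.Agent.helper62 Prog Function Pool.Agent.helper81.PL

/-- remove one symbol -/
def X1_pop : Prog ℕ := .ifp 0 .skip .skip .skip

/-- the body of the output loop -/
def X1_body : Prog ℕ := .ifp 0 .skip (.push 1 false) (.seq X1_pop (.seq X1_pop (.push 1 true)))

/-- the output program -/
def X1_out : Prog ℕ := .seq (.loop 0 .skip X1_body) (pour 1 0)

theorem X1_pop_runs (b : Bool) (l : List Bool) (S : ℕ → List Bool) (h : S 0 = b :: l) :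
    Runs X1_pop S (update S 0 l) 2 := by
  have h1 : Runs (if b then .skip else .skip) (update S 0 l) (update S 0 l) 1 := by
    cases b <;> exact Runs.skip _
  exact (Runs.ifp (pn := .skip) h h1).mono (by norm_num)

theorem X1_body_false (l : List Bool) (S : ℕ → List Bool) (h : S 0 = false :: l) :
    Runs X1_body S (update (update S 0 l) 1 (false :: S 1)) 7 := by
  have h1 : Runs (I := ℕ) (if false then (.seq X1_pop (.seq X1_pop (.push 1 true)))
      else (.push 1 false)) (update S 0 l) (update (update S 0 l) 1 (false :: S 1)) 1 := by
    have := Runs.push (I := ℕ) 1 false (update S 0 l)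
    rw [update_of_ne (by decide : (1 : ℕ) ≠ 0)] at this
    exact this
  exact (Runs.ifp (pn := .skip) h h1).mono (by norm_num)

theorem X1_body_true (l : List Bool) (S : ℕ → List Bool) (h : S 0 = true :: false :: false :: l) :
    Runs X1_body S (update (update S 0 l) 1 (true :: S 1)) 7 := by
  have h1 : Runs (I := ℕ) (if true then (.seq X1_pop (.seq X1_pop (.push 1 true)))
      else (.push 1 false)) (update S 0 (false :: false :: l))
      (update (update S 0 l) 1 (true :: S 1)) 5 := by
    have a1 := X1_pop_runs false (false :: l) (update S 0 (false :: false :: l))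
      (by rw [update_self])
    rw [update_idem] at a1
    have a2 := X1_pop_runs false l (update S 0 (false :: l)) (by rw [update_self])
    rw [update_idem] at a2
    have a3 := Runs.push (I := ℕ) 1 true (update S 0 l)
    rw [update_of_ne (by decide : (1 : ℕ) ≠ 0)] at a3
    exact (a1.seq (a2.seq a3)).mono (by norm_num)
  exact (Runs.ifp (pn := .skip) h h1).mono (by norm_num)

theorem X1_loop : ∀ (v : List Bool) (S : ℕ → List Bool), S 0 = cd v →
    Runs (.loop 0 .skip X1_body) S (update (update S 0 []) 1 (v.reverse ++ S 1))
      (8 * v.length + 3) := by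
  intro v
  induction v with
  | nil =>
    intro S h
    have h1 : Runs (I := ℕ) (if false then X1_body else .skip) (update S 0 []) (update S 0 []) 1 :=
      Runs.skip _
    have h2 : Runs (.loop 0 .skip X1_body) (update S 0 []) (update S 0 []) 1 :=
      Runs.loop_nil (by rw [update_self])
    have h3 := Runs.loop_cons (by rw [h]; rfl : S 0 = false :: []) h1 h2
    refine h3.mono' ?_ (by simp)
    funext j
    by_cases hj : j = 1
    · subst hj; simp
    · rw [update_of_ne hj]
  | cons b v ih =>
    intro S h
    have hb : Runs (I := ℕ) (if true then X1_body else .skip)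
        (update S 0 (if b then true :: false :: false :: cd v else false :: cd v))
        (update (update S 0 (cd v)) 1 (b :: S 1)) 7 := by
      cases b
      · have := X1_body_false (cd v) (update S 0 (false :: cd v)) (by rw [update_self])
        rw [update_idem, update_of_ne (by decide : (1 : ℕ) ≠ 0)] at this
        exact this
      · have := X1_body_true (cd v) (update S 0 (true :: false :: false :: cd v))
          (by rw [update_self])
        rw [update_idem, update_of_ne (by decide : (1 : ℕ) ≠ 0)] at this
        exact this
    have h0 : S 0 = true :: (if b then true :: false :: false :: cd v else false :: cd v) := by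
      rw [h]
      cases b <;> rfl
    have h2 := ih (update (update S 0 (cd v)) 1 (b :: S 1))
      (by rw [update_of_ne (by decide), update_self])
    rw [update_self] at h2
    refine (Runs.loop_cons h0 hb h2).mono' ?_ ?_
    · rw [List.reverse_cons, List.append_assoc, List.singleton_append]
      funext j
      by_cases hj : j = 1
      · subst hj; simp
      · rw [update_of_ne hj, update_of_ne hj]
        by_cases hj' : j = 0
        · subst hj'; simp
        · simp [update_of_ne hj, update_of_ne hj']
    · rw [List.length_cons]; omega

theorem X1_out_runs (v : List Bool) :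
    Runs X1_out (update (fun _ => []) 0 (cd v)) (update (fun _ => []) 0 v)
      (10 * v.length + 4) := by
  have h1 := X1_loop v (update (fun _ => []) 0 (cd v)) (by rw [update_self])
  rw [update_idem, update_of_ne (by decide : (1 : ℕ) ≠ 0), List.append_nil] at h1
  have h2 := Runs.pour (k := 1) (k' := 0) (by decide) v.reverse
    (update (update (fun _ => []) 0 []) 1 v.reverse : ℕ → List Bool) (by rw [update_self])
  refine (h1.seq h2).mono' ?_ (by simp; omega)
  funext j
  by_cases hj : j = 0
  · subst hj; simp
  · rw [update_of_ne hj, update_of_ne hj]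
    by_cases hj' : j = 1
    · subst hj'; simp
    · simp [update_of_ne hj']

theorem X1_sz (w : W) : sz w ≤ 4 * w.length + 1 := by
  have h := sz_list_le (l := w) (n := w.length) (m := 3) le_rfl (fun a _ => sz_bool_le a)
  omega

theorem X1 : X1_stmt := by
  intro f hf
  obtain ⟨c, h⟩ := hf
  obtain ⟨q, hq⟩ := h 0
  obtain ⟨pin, c1, hin⟩ := INP
  refine ⟨.seq pin (.seq q X1_out), Polynomial.C c1 * (Polynomial.X + 1) +
    (c.comp (4 * Polynomial.X + 1) + (10 * (4 * Polynomial.X + 1 +
      c.comp (4 * Polynomial.X + 1)) + 4)), ?_⟩
  intro w
  have h1 := hq w (update (fun _ => []) 0 (cd w)) (by simp) (fun i hi => by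
    rw [update_of_ne (by omega)])
  rw [update_idem] at h1
  have h2 := (hin w).seq (h1.seq (X1_out_runs (f w)))
  refine h2.mono ?_
  have hp : c.eval (sz w) ≤ c.eval (4 * w.length + 1) :=
    Pool.Agent.H54.PT.pe_mono _ (X1_sz w)
  have hv : (f w).length ≤ 4 * w.length + 1 + c.eval (4 * w.length + 1) := by
    have e1 := LEN W W f (fun a => c.eval (sz a)) h w
    have e2 := length_le_sz (f w)
    have e3 := X1_sz w
    omega
  simp only [Polynomial.eval_add, Polynomial.eval_mul, Polynomial.eval_comp, Polynomial.eval_C,
    Polynomial.eval_X, Polynomial.eval_one, Polynomial.eval_ofNat]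
  omega

end Pool.Agent.RI
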