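import Pool.Agent.helper55.RI.SpecG

/-!
# Project rg (MP_2bd605_lc): module S2
-/

set_option autoImplicit false
set_option linter.unusedVariables false

namespace Pool.Agent.RI

open Pool.Agent.helper62 Prog Function Pool.Agent.helper81.PL

/-- the transformed list of lists -/
def S2_G (F : W → List (List W)) (v : W) : List (List W) :=
  ((Encodable.decode (α := ℕ × List W) (sn v).length).bind (fun c =>
    ((F (fs v))[c.1]?).map (fun ℓ => (List.range ℓ.length).map
      (fun i => [pr (ℓ.getD i []) (c.2.getD i [])])))).getD [[]]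

theorem S2_comp (h1 : G1_stmt) (h2 : G2_stmt) (F : W → List (List W)) (hF : Computable F) :
    Computable (S2_G F) := by
  have hfs : Primrec fs := h2.2.1 fs h1.1
  have hsn : Primrec sn := h2.2.1 sn h1.2.1
  have hpr : Primrec₂ pr := h2.2.2.2.2.2.1
  unfold S2_G
  refine Computable.option_getD ?_ (Computable.const _)
  refine Computable.option_bind ?_ ?_
  · exact Computable.decode.comp ((Primrec.list_length.comp hsn).to_comp)
  · refine Computable.option_map ?_ ?_
    · exact (Primrec.list_getElem?.to_comp).comp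
        (hF.comp (hfs.to_comp.comp Computable.fst)) (Computable.fst.comp Computable.snd)
    · refine Primrec₂.to_comp ?_
      refine Primrec.list_map (Primrec.list_range.comp (Primrec.list_length.comp Primrec.snd)) ?_
      refine Primrec.list_cons.comp (hpr.comp ?_ ?_) (Primrec.const [])
      · exact (Primrec.list_getD ([] : W)).comp (Primrec.snd.comp Primrec.fst) Primrec.snd
      · exact (Primrec.list_getD ([] : W)).comp
          (Primrec.snd.comp (Primrec.snd.comp (Primrec.fst.comp Primrec.fst))) Primrec.snd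

theorem S2_choose (B : Set W) (ℓ : List W) :
    (∀ a ∈ ℓ, ∃ y, pr a y ∉ B) ↔
      ∃ ys : List W, ∀ i < ℓ.length, pr (ℓ.getD i []) (ys.getD i []) ∉ B := by
  classical
  constructor
  · intro h
    have h' : ∀ i : ℕ, ∃ y : W, i < ℓ.length → pr (ℓ.getD i []) y ∉ B := by
      intro i
      by_cases hi : i < ℓ.length
      · have hm : ℓ.getD i [] ∈ ℓ := by
          rw [List.getD_eq_getElem _ _ hi]
          exact List.getElem_mem hi
        obtain ⟨y, hy⟩ := h _ hm
        exact ⟨y, fun _ => hy⟩
      · exact ⟨[], fun hc => absurd hc hi⟩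
    choose g hg using h'
    refine ⟨(List.range ℓ.length).map g, fun i hi => ?_⟩
    have : ((List.range ℓ.length).map g).getD i [] = g i := by
      rw [List.getD_eq_getElem _ _ (by simpa using hi)]
      simp
    rw [this]
    exact hg i hi
  · rintro ⟨ys, h⟩ a ha
    obtain ⟨i, hi, rfl⟩ := List.getElem_of_mem ha
    refine ⟨ys.getD i [], ?_⟩
    have h3 := h i hi
    rw [List.getD_eq_getElem _ _ hi] at h3
    exact h3

/-- S2 -/
theorem S2 (h1 : G1_stmt) (h2 : G2_stmt) : S2_stmt := by
  intro n hG
  have hfs : Primrec fs := h2.2.1 fs h1.1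
  have hsn : Primrec sn := h2.2.1 sn h1.2.1
  have e1 : ∀ x y, fs (pr x y) = x := h1.2.2.2.1
  have e2 : ∀ x y, sn (pr x y) = y := h1.2.2.2.2.1
  constructor
  · intro A hA
    obtain ⟨T, hT, _, hTA⟩ := (R1 W (fun x => x ∈ A)).1 hA
    have hc : Computable (fun p : W × ℕ => !(T (fs p.1, (sn p.1).length))) := by
      refine (Primrec.not.to_comp).comp (hT.comp (Computable.pair ?_ ?_))
      · exact hfs.to_comp.comp Computable.fst
      · exact (Primrec.list_length.comp hsn).to_comp.comp Computable.fst
    have hB : {v : W | T (fs v, (sn v).length) = false} ∈ Sig n := by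
      apply hG.re
      refine (R1 W (fun v => v ∈ {v : W | T (fs v, (sn v).length) = false})).2
        ⟨_, hc, ?_, ?_⟩
      · intro a i j _ h
        exact h
      · intro a
        constructor
        · intro h
          refine ⟨0, ?_⟩
          have h' : T (fs a, (sn a).length) = false := h
          simp only [h', Bool.not_false]
        · rintro ⟨_, h⟩
          have h' : T (fs a, (sn a).length) = false := by simpa using h
          exact h'
    refine ⟨_, hB, fun x => ?_⟩
    rw [hTA x]
    constructor
    · rintro ⟨k, hk⟩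
      refine ⟨List.replicate k true, ?_⟩
      intro hc
      have hc' : T (fs (pr x (List.replicate k true)), (sn (pr x (List.replicate k true))).length) =
        false := hc
      rw [e1, e2, List.length_replicate, hk] at hc'
      exact Bool.noConfusion hc'
    · rintro ⟨y, hy⟩
      refine ⟨y.length, ?_⟩
      by_contra h
      apply hy
      change T (fs (pr x y), (sn (pr x y)).length) = false
      rw [e1, e2]
      exact Bool.eq_false_iff.2 h
  · rintro A ⟨B, hB, hA⟩ F hF
    refine ⟨{v : W | ∃ ℓ ∈ S2_G F v, ∀ a ∈ ℓ, a ∈ B}, hG.tt B hB (S2_G F) (S2_comp h1 h2 F hF),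
      fun x => ?_⟩
    have key : ∀ y : W, pr x y ∉ {v : W | ∃ ℓ ∈ S2_G F v, ∀ a ∈ ℓ, a ∈ B} ↔
        ∃ (j : ℕ) (ys ℓ : List W), Encodable.decode (α := ℕ × List W) y.length = some (j, ys) ∧
          (F x)[j]? = some ℓ ∧ ∀ i < ℓ.length, pr (ℓ.getD i []) (ys.getD i []) ∉ B := by
      intro y
      have hGv : S2_G F (pr x y) = ((Encodable.decode (α := ℕ × List W) y.length).bind (fun c =>
          ((F x)[c.1]?).map (fun ℓ => (List.range ℓ.length).map
            (fun i => [pr (ℓ.getD i []) (c.2.getD i [])])))).getD [[]] := by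
        unfold S2_G
        rw [e1, e2]
      change ¬ (∃ ℓ ∈ S2_G F (pr x y), ∀ a ∈ ℓ, a ∈ B) ↔ _
      rw [hGv]
      rcases hd : Encodable.decode (α := ℕ × List W) y.length with _ | ⟨j, ys⟩
      · simp
      · rcases hj : (F x)[j]? with _ | ℓ
        · constructor
          · intro h
            exfalso
            apply h
            refine ⟨[], ?_, by simp⟩
            simp [hj]
          · rintro ⟨j', ys', ℓ', h3, h4, _⟩
            obtain ⟨rfl, rfl⟩ : j = j' ∧ ys = ys' := by simpa using h3
            rw [hj] at h4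
            exact absurd h4 (by simp)
        · constructor
          · intro h
            refine ⟨j, ys, ℓ, rfl, hj, fun i hi hc => ?_⟩
            apply h
            refine ⟨[pr (ℓ.getD i []) (ys.getD i [])], ?_, ?_⟩
            · rw [Option.bind_some, hj, Option.map_some, Option.getD_some, List.mem_map]
              exact ⟨i, List.mem_range.2 hi, rfl⟩
            · intro a ha
              rw [List.mem_singleton] at ha
              rw [ha]
              exact hc
          · rintro ⟨j', ys', ℓ', h3, h4, h5⟩ ⟨l, hl, hlB⟩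
            obtain ⟨rfl, rfl⟩ : j = j' ∧ ys = ys' := by simpa using h3
            rw [hj] at h4
            obtain rfl : ℓ = ℓ' := by simpa using h4
            rw [Option.bind_some, hj, Option.map_some, Option.getD_some, List.mem_map] at hl
            obtain ⟨i, hi, rfl⟩ := hl
            exact h5 i (List.mem_range.1 hi) (hlB _ (List.mem_singleton.2 rfl))
    have hL : x ∈ {x : W | ∃ ℓ ∈ F x, ∀ a ∈ ℓ, a ∈ A} ↔
        ∃ (j : ℕ) (ys ℓ : List W), (F x)[j]? = some ℓ ∧
          ∀ i < ℓ.length, pr (ℓ.getD i []) (ys.getD i []) ∉ B := by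
      constructor
      · rintro ⟨ℓ, hℓ, hall⟩
        obtain ⟨j, hj⟩ := List.mem_iff_getElem?.1 hℓ
        obtain ⟨ys, hys⟩ := (S2_choose B ℓ).1 (fun a ha => (hA a).1 (hall a ha))
        exact ⟨j, ys, ℓ, hj, hys⟩
      · rintro ⟨j, ys, ℓ, hj, hys⟩
        refine ⟨ℓ, List.mem_iff_getElem?.2 ⟨j, hj⟩, fun a ha => ?_⟩
        exact (hA a).2 ((S2_choose B ℓ).2 ⟨ys, hys⟩ a ha)
    rw [hL]
    constructor
    · rintro ⟨j, ys, ℓ, hj, hys⟩
      refine ⟨List.replicate (Encodable.encode (α := ℕ × List W) (j, ys)) true, ?_⟩
      rw [key]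
      refine ⟨j, ys, ℓ, ?_, hj, hys⟩
      rw [List.length_replicate]
      exact Encodable.encodek _
    · rintro ⟨y, hy⟩
      rw [key] at hy
      obtain ⟨j, ys, ℓ, _, hj, hys⟩ := hy
      exact ⟨j, ys, ℓ, hj, hys⟩

end Pool.Agent.RI
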